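import Pool.Agent.K3h16.MI.Stm

set_option autoImplicit false

/-!
# The exactness identity (brick EXACT of project MI of helper16)
-/

open MeasureTheory Set Filter Topology

namespace Pool.Agent.K3h69.MI

open Pool.Agent.K3h16.MI

/-- the rank one update of a determinant, for a subset of the rows -/
theorem det_rank_one_aux {m : ℕ} (C : Matrix (Fin m) (Fin m) ℝ) (c b : Fin m → ℝ)
    (S : Finset (Fin m)) :
    Matrix.det (Matrix.of fun i j => C i j + (if i ∈ S then c i else 0) * b j) =
      C.det + ∑ i ∈ S, c i * (C.updateRow i b).det := by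
  classical
  induction S using Finset.induction_on with
  | empty =>
    rw [Finset.sum_empty, add_zero]
    congr 1
    ext i j
    simp
  | insert k S hk ih =>
    rw [Finset.sum_insert hk]
    have e1 : (Matrix.of fun i j => C i j + (if i ∈ insert k S then c i else 0) * b j) =
        (Matrix.of fun i j => C i j + (if i ∈ S then c i else 0) * b j).updateRow k
          ((fun j => C k j) + c k • b) := by
      ext i j
      by_cases hi : i = k
      · subst hi
        rw [Matrix.updateRow_self]
        simp
      · rw [Matrix.updateRow_ne hi]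
        simp [hi]
    rw [e1, Matrix.det_updateRow_add, Matrix.det_updateRow_smul]
    have e2 : (Matrix.of fun i j => C i j + (if i ∈ S then c i else 0) * b j).updateRow k
        (fun j => C k j) = Matrix.of fun i j => C i j + (if i ∈ S then c i else 0) * b j := by
      ext i j
      by_cases hi : i = k
      · subst hi
        rw [Matrix.updateRow_self]
        simp [hk]
      · rw [Matrix.updateRow_ne hi]
    have e3 : ((Matrix.of fun i j => C i j + (if i ∈ S then c i else 0) * b j).updateRow k
        b).det = (C.updateRow k b).det := by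
      refine Matrix.det_eq_of_forall_row_eq_smul_add_const (fun i => if i ∈ S then c i else 0) k
        (by simp [hk]) ?_
      intro i j
      by_cases hi : i = k
      · subst hi
        rw [Matrix.updateRow_self, Matrix.updateRow_self]
        simp [hk]
      · rw [Matrix.updateRow_ne hi, Matrix.updateRow_ne hi, Matrix.updateRow_self]
        simp
    rw [e2, ih, e3]
    ring

/-- the rank one update of a determinant -/
theorem det_rank_one {m : ℕ} (C : Matrix (Fin m) (Fin m) ℝ) (c b : Fin m → ℝ) :
    Matrix.det (Matrix.of fun i j => C i j + c i * b j) =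
      C.det + ∑ i, c i * (C.updateRow i b).det := by
  have h := det_rank_one_aux C c b Finset.univ
  simpa using h

/-- the sum which appears in the rank one update -/
noncomputable def psum {m n : ℕ} (w f : Fin m → E n) (r : E n) : ℝ :=
  ∑ i, inner ℝ (w i) r * ((Matrix.of fun a b => inner ℝ (w a) (f b)).updateRow i
    (fun b => inner ℝ r (f b))).det

theorem kdet_mul {m n : ℕ} (α : ℝ) (w f : Fin m → E n) (r : E n) {s : ℝ} (hs : 2 < s) :
    kdet α w f r * ‖r‖ ^ s =
      Matrix.det (Matrix.of fun a b => inner ℝ (w a) (f b)) * ‖r‖ ^ s +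
        α * (‖r‖ ^ (s - 2) * psum w f r) := by
  by_cases hr : r = 0
  · subst hr
    rw [norm_zero, Real.zero_rpow (by linarith), Real.zero_rpow (by linarith)]
    ring
  · have hn : ‖r‖ ≠ 0 := norm_ne_zero_iff.2 hr
    have h0 : kdet α w f r = Matrix.det (Matrix.of fun a b => inner ℝ (w a) (f b)) +
        α / ‖r‖ ^ 2 * psum w f r := by
      have h1 := det_rank_one (Matrix.of fun a b => inner ℝ (w a) (f b))
        (fun i => α / ‖r‖ ^ 2 * inner ℝ (w i) r) (fun b => inner ℝ r (f b))
      have h2 : kdet α w f r = Matrix.det (Matrix.of fun i j =>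
          (Matrix.of fun a b => inner ℝ (w a) (f b)) i j +
            (α / ‖r‖ ^ 2 * inner ℝ (w i) r) * inner ℝ r (f j)) := by
        unfold kdet
        congr 1
        ext i j
        simp only [Matrix.of_apply]
        field_simp
      rw [h2, h1]
      unfold psum
      rw [Finset.mul_sum]
      congr 1
      refine Finset.sum_congr rfl fun i _ => ?_
      ring
    have h3 : ‖r‖ ^ (s - 2) = ‖r‖ ^ s / ‖r‖ ^ 2 := by
      have h4 := Real.rpow_sub_natCast hn s 2
      push_cast at h4
      exact h4
    rw [h0, h3]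
    field_simp

/-- the functions to which Stokes is applied -/
noncomputable def phi {m n : ℕ} (w : Fin m → E n) (x : E n) (s : ℝ) (i j : Fin m) (y : E n) : ℝ :=
  if j = i then ‖x - y‖ ^ s * inner ℝ (w i) (x - y) else inner ℝ (w j) y

theorem phi_smooth {m n : ℕ} (w : Fin m → E n) (x : E n) (s : ℝ) (i j : Fin m) (h : j ≠ i) :
    ContDiff ℝ (⊤ : ℕ∞) (phi w x s i j) := by
  have e : phi w x s i j = fun y => inner ℝ (w j) y := by
    funext y
    unfold phi
    rw [if_neg h]
  rw [e]
  exact contDiff_const.inner ℝ contDiff_id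

theorem phi_C1 {m n : ℕ} (w : Fin m → E n) (x : E n) {s : ℝ} (hs : 1 < s) (i : Fin m) :
    ContDiff ℝ 1 (phi w x s i i) := by
  have e : phi w x s i i = fun y => ‖x - y‖ ^ s * inner ℝ (w i) (x - y) := by
    funext y
    unfold phi
    rw [if_pos rfl]
  rw [e]
  have h1 : ContDiff ℝ 1 (fun y : E n => x - y) := contDiff_const.sub contDiff_id
  exact (h1.norm_rpow hs).mul (contDiff_const.inner ℝ h1)

theorem fderiv_phi_ne {m n : ℕ} (w : Fin m → E n) (x : E n) (s : ℝ) (i j : Fin m) (h : j ≠ i)
    (y v : E n) : fderiv ℝ (phi w x s i j) y v = inner ℝ (w j) v := by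
  have e : phi w x s i j = fun y => inner ℝ (w j) y := by
    funext y
    unfold phi
    rw [if_neg h]
  rw [e]
  have h1 : HasFDerivAt (fun y : E n => inner ℝ (w j) y) (innerSL ℝ (w j)) y :=
    (innerSL ℝ (w j)).hasFDerivAt
  rw [h1.fderiv]
  rfl

theorem fderiv_phi_self {m n : ℕ} (w : Fin m → E n) (x : E n) {s : ℝ} (hs : 1 < s) (i : Fin m)
    (y v : E n) : fderiv ℝ (phi w x s i i) y v =
      -(‖x - y‖ ^ s * inner ℝ (w i) v +
        s * (‖x - y‖ ^ (s - 2) * (inner ℝ (w i) (x - y) * inner ℝ (x - y) v))) := by
  have e : phi w x s i i = fun y => ‖x - y‖ ^ s * inner ℝ (w i) (x - y) := by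
    funext y
    unfold phi
    rw [if_pos rfl]
  rw [e]
  have h0 : HasFDerivAt (fun y : E n => x - y) (-(ContinuousLinearMap.id ℝ (E n))) y := by
    have := (hasFDerivAt_id (𝕜 := ℝ) y).const_sub x
    exact this
  have h1 : HasFDerivAt (fun y : E n => ‖x - y‖ ^ s)
      (((s * ‖x - y‖ ^ (s - 2)) • innerSL ℝ (x - y)).comp
        (-(ContinuousLinearMap.id ℝ (E n)))) y :=
    (hasFDerivAt_norm_rpow (x - y) hs).comp y h0
  have h2 : HasFDerivAt (fun y : E n => inner ℝ (w i) (x - y))
      ((innerSL ℝ (w i)).comp (-(ContinuousLinearMap.id ℝ (E n)))) y :=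
    ((innerSL ℝ (w i)).hasFDerivAt (x := x - y)).comp y h0
  have h3 := HasFDerivAt.fun_mul h1 h2
  rw [h3.fderiv]
  simp only [_root_.add_apply, _root_.smul_apply,
    ContinuousLinearMap.comp_apply, _root_.neg_apply, ContinuousLinearMap.id_apply,
    innerSL_apply_apply, inner_neg_right, smul_eq_mul]
  ring

/-- the integrand of Stokes' theorem, for the index `i` -/
theorem det_phi {m n : ℕ} (w f : Fin m → E n) (x y : E n) {s : ℝ} (hs : 1 < s) (i : Fin m) :
    Matrix.det (Matrix.of fun a b => fderiv ℝ (phi w x s i a) y (f b)) =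
      -(Matrix.det (Matrix.of fun a b => inner ℝ (w a) (f b)) * ‖x - y‖ ^ s +
        s * (‖x - y‖ ^ (s - 2) * (inner ℝ (w i) (x - y) *
          ((Matrix.of fun a b => inner ℝ (w a) (f b)).updateRow i
            (fun b => inner ℝ (x - y) (f b))).det))) := by
  classical
  set C : Matrix (Fin m) (Fin m) ℝ := Matrix.of fun a b => inner ℝ (w a) (f b) with hC
  have e1 : (Matrix.of fun a b => fderiv ℝ (phi w x s i a) y (f b)) =
      C.updateRow i ((-(‖x - y‖ ^ s)) • (fun b => C i b) +
        (-(s * (‖x - y‖ ^ (s - 2) * inner ℝ (w i) (x - y)))) •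
          fun b => inner ℝ (x - y) (f b)) := by
    ext a b
    by_cases h : a = i
    · subst h
      rw [Matrix.updateRow_self]
      simp only [Matrix.of_apply, Pi.add_apply, Pi.smul_apply, smul_eq_mul, hC]
      rw [fderiv_phi_self w x hs]
      ring
    · rw [Matrix.updateRow_ne h]
      simp only [Matrix.of_apply, hC]
      exact fderiv_phi_ne w x s i a h y (f b)
  have e2 : C.updateRow i (fun b => C i b) = C := Matrix.updateRow_eq_self C i
  rw [e1, Matrix.det_updateRow_add, Matrix.det_updateRow_smul, Matrix.det_updateRow_smul, e2]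
  ring

theorem t_EXACT : S_STOKES → S_CONT1 → S_FIN → S_EXACT := by
  intro hS hC hF m n M e v hM s hs x w
  have : IsFiniteMeasure v := hF m n M e v hM
  -- integrability of the kernels
  have hint : ∀ α : ℝ, Integrable (fun y => kdet α w (e y) (x - y) * ‖x - y‖ ^ s) v := by
    intro α
    have h1 := hC m n M e v hM α s x w (by linarith)
    have h2 : IntegrableOn (fun y => kdet α w (e y) (x - y) * ‖x - y‖ ^ s) M v :=
      h1.integrableOn_compact hM.compact
    have h3 : v.restrict M = v := by
      apply Measure.restrict_eq_self_of_ae_mem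
      rw [ae_iff]
      exact hM.vol_compl
    unfold IntegrableOn at h2
    rwa [h3] at h2
  -- the sum over `i` of the integrands
  have hsum : ∀ y, ∑ i : Fin m, Matrix.det (Matrix.of fun a b =>
      fderiv ℝ (phi w x s i a) y (e y b)) =
      -((m : ℝ) * (kdet 0 w (e y) (x - y) * ‖x - y‖ ^ s) +
        s / 2 * (kdet 0 w (e y) (x - y) * ‖x - y‖ ^ s -
          kdet (-2) w (e y) (x - y) * ‖x - y‖ ^ s)) := by
    intro y
    have h0 := kdet_mul 0 w (e y) (x - y) (s := s) (by linarith)
    have h2 := kdet_mul (-2) w (e y) (x - y) (s := s) (by linarith)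
    rw [h0, h2]
    rw [Finset.sum_congr rfl fun i _ => det_phi w (e y) x y (by linarith : 1 < s) i]
    rw [Finset.sum_neg_distrib, Finset.sum_add_distrib, Finset.sum_const, Finset.card_univ,
      Fintype.card_fin, nsmul_eq_mul, ← Finset.mul_sum, ← Finset.mul_sum]
    unfold psum
    ring
  have hst : ∀ i : Fin m, Integrable (fun y => Matrix.det (Matrix.of fun a b =>
      fderiv ℝ (phi w x s i a) y (e y b))) v ∧ ∫ y, Matrix.det (Matrix.of fun a b =>
      fderiv ℝ (phi w x s i a) y (e y b)) ∂v = 0 := fun i =>
    hS m n M e v hM i (phi w x s i) (fun j hj => phi_smooth w x s i j hj)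
      (phi_C1 w x (by linarith) i)
  have h1 : ∫ y, ∑ i : Fin m, Matrix.det (Matrix.of fun a b =>
      fderiv ℝ (phi w x s i a) y (e y b)) ∂v = 0 := by
    rw [integral_finsetSum _ fun i _ => (hst i).1]
    exact Finset.sum_eq_zero fun i _ => (hst i).2
  simp only [hsum] at h1
  have hi : Integrable (fun y => kdet 0 w (e y) (x - y) * ‖x - y‖ ^ s -
      kdet (-2) w (e y) (x - y) * ‖x - y‖ ^ s) v := (hint 0).sub (hint (-2))
  rw [integral_neg, integral_add ((hint 0).const_mul _)
    (hi.const_mul _), integral_const_mul, integral_const_mul,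
    integral_sub (hint 0) (hint (-2))] at h1
  have hs0 : s ≠ 0 := by linarith
  field_simp
  linarith

end Pool.Agent.K3h69.MI
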